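import Pool.Agent.Helper30.ML.Goals

/-!
# Project ML (MP_bf413e_co), packet CV: a cut vertex
-/

set_option autoImplicit false

namespace Pool.Agent.Helper47.ML

open scoped Classical
open Finset
open Pool.Agent.Helper94.KC (Proper InChain KStep KEq AllEq StmtUN)
open Pool.Agent.Helper30.ML

section

variable {V : Type} {G : SimpleGraph V} {f : V → Fin 5} {a b : Fin 5} {x : V}

theorem ch_refl (h : f x = a ∨ f x = b) : InChain G f a b x x :=
  ⟨h, h, SimpleGraph.Reachable.refl _⟩

theorem ch_col {y : V} (h : InChain G f a b x y) : f y = a ∨ f y = b := by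
  obtain ⟨_, hy, _⟩ := h
  exact hy

theorem ch_adj {y z : V} (h : InChain G f a b x y) (hz : G.Adj y z) (hc : f z = a ∨ f z = b) :
    InChain G f a b x z := by
  obtain ⟨hx, hy, hr⟩ := h
  refine ⟨hx, hc, hr.trans (SimpleGraph.Adj.reachable ?_)⟩
  exact hz

theorem ch_ind (P : V → Prop) (h0 : P x)
    (hs : ∀ y z, InChain G f a b x y → P y → G.Adj y z → (f z = a ∨ f z = b) → P z)
    {y : V} (h : InChain G f a b x y) : P y := by
  obtain ⟨hx, hy, hr⟩ := h
  rw [SimpleGraph.reachable_iff_reflTransGen] at hr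
  have key : ∀ z : {v | f v = a ∨ f v = b},
      Relation.ReflTransGen (G.induce {v | f v = a ∨ f v = b}).Adj ⟨x, hx⟩ z → P z.1 := by
    intro z hz
    induction hz with
    | refl => exact h0
    | @tail u w hu huw ih =>
      refine hs u.1 w.1 ⟨hx, u.2, ?_⟩ ih huw w.2
      rw [SimpleGraph.reachable_iff_reflTransGen]
      exact hu
  exact key ⟨y, hy⟩ hr

theorem step_sw (h : f x = a ∨ f x = b) : KStep G f (sw G f a b x) := by
  refine ⟨a, b, x, h, fun y ↦ ⟨fun hy ↦ ?_, fun hy ↦ ?_⟩⟩
  · simp [sw, hy]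
  · simp [sw, hy]

end

section

variable {V : Type} {G : SimpleGraph V} {v : V} {A : Set V}

/-- the chain of a vertex outside `B` in `rs G B` is a point -/
theorem ch_out {B : Set V} {f : V → Fin 5} {a b : Fin 5} {x y : V} (hx : x ∉ B)
    (h : InChain (rs G B) f a b x y) : y = x := by
  refine ch_ind (P := fun z ↦ z = x) rfl (fun y z _ hy hyz _ ↦ ?_) h
  exfalso
  have h1 := hyz.2.1
  rw [hy] at h1
  exact hx h1

/-- (1), one step -/
theorem cv1_step (hA : ∀ x ∈ A, ∀ y, y ∉ A → G.Adj x y → y = v)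
    {f g F : V → Fin 5} (h : KStep (rs G (insert v A)) f g) (hF : ∀ y ∈ insert v A, F y = f y) :
    ∃ F', KEq G F F' ∧ ∀ y ∈ insert v A, F' y = g y := by
  obtain ⟨a, b, x, hx, hg⟩ := h
  by_cases hxW : x ∈ insert v A
  · have hFx : F x = a ∨ F x = b := by rw [hF x hxW]; exact hx
    refine ⟨sw G F a b x, Relation.ReflTransGen.single (step_sw hFx), ?_⟩
    have h1 : ∀ y, InChain (rs G (insert v A)) f a b x y → y ∈ insert v A ∧ InChain G F a b x y := by
      intro y hy
      refine ch_ind (P := fun z ↦ z ∈ insert v A ∧ InChain G F a b x z) ⟨hxW, ch_refl hFx⟩ ?_ hy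
      rintro y z _ ⟨_, hy2⟩ hyz hc
      refine ⟨hyz.2.2, ch_adj hy2 hyz.1 ?_⟩
      rw [hF z hyz.2.2]
      exact hc
    have h2 : ∀ y, InChain G F a b x y →
        (y ∈ insert v A → InChain (rs G (insert v A)) f a b x y) ∧
        (y ∉ insert v A → InChain (rs G (insert v A)) f a b x v) := by
      intro y hy
      refine ch_ind (P := fun y ↦ (y ∈ insert v A → InChain (rs G (insert v A)) f a b x y) ∧
        (y ∉ insert v A → InChain (rs G (insert v A)) f a b x v))
        ⟨fun _ ↦ ch_refl hx, fun h ↦ absurd hxW h⟩ ?_ hy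
      rintro y z _ ⟨hy1, hy2⟩ hyz hc
      by_cases hyW : y ∈ insert v A
      · by_cases hzW : z ∈ insert v A
        · refine ⟨fun _ ↦ ch_adj (hy1 hyW) ⟨hyz, hyW, hzW⟩ ?_, fun h ↦ absurd hzW h⟩
          rw [← hF z hzW]
          exact hc
        · refine ⟨fun h ↦ absurd h hzW, fun _ ↦ ?_⟩
          have hyv : y = v := by
            rcases hyW with h | h
            · exact h
            · exfalso
              have := hA y h z (fun hz ↦ hzW (Or.inr hz)) hyz
              exact hzW (Or.inl this)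
          rw [hyv] at hy1
          exact hy1 (Or.inl rfl)
      · by_cases hzW : z ∈ insert v A
        · refine ⟨fun _ ↦ ?_, fun h ↦ absurd hzW h⟩
          have hzv : z = v := by
            rcases hzW with h | h
            · exact h
            · exfalso
              have := hA z h y (fun hy ↦ hyW (Or.inr hy)) hyz.symm
              exact hyW (Or.inl this)
          rw [hzv]
          exact hy2 hyW
        · exact ⟨fun h ↦ absurd h hzW, fun _ ↦ hy2 hyW⟩
    intro y hy
    by_cases hc : InChain G F a b x y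
    · rw [(hg y).1 ((h2 y hc).1 hy)]
      simp only [sw, if_pos hc]
      rw [hF y hy]
    · have hc' : ¬ InChain (rs G (insert v A)) f a b x y := fun h ↦ hc (h1 y h).2
      rw [(hg y).2 hc']
      simp only [sw, if_neg hc]
      rw [hF y hy]
  · refine ⟨F, Relation.ReflTransGen.refl, fun y hy ↦ ?_⟩
    have hc : ¬ InChain (rs G (insert v A)) f a b x y := by
      intro h
      exact hxW ((ch_out hxW h) ▸ hy)
    rw [(hg y).2 hc]
    exact hF y hy

/-- (1) -/
theorem cv1 (hA : ∀ x ∈ A, ∀ y, y ∉ A → G.Adj x y → y = v)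
    {f g F : V → Fin 5} (h : KEq (rs G (insert v A)) f g) (hF : ∀ y ∈ insert v A, F y = f y) :
    ∃ F', KEq G F F' ∧ ∀ y ∈ insert v A, F' y = g y := by
  unfold KEq at h
  induction h with
  | refl => exact ⟨F, Relation.ReflTransGen.refl, hF⟩
  | tail _ hs ih =>
    obtain ⟨F₁, h1, h2⟩ := ih
    obtain ⟨F₂, h3, h4⟩ := cv1_step hA hs h2
    exact ⟨F₂, Relation.ReflTransGen.trans h1 h3, h4⟩

/-- (2), one step -/
theorem cv2_step [Fintype V] (UN : StmtUN) (hv : v ∉ A)
    (hA : ∀ x ∈ A, ∀ y, y ∉ A → G.Adj x y → y = v) (g : V → Fin 5)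
    {f h F : V → Fin 5} (s : Equiv.Perm (Fin 5)) (hst : KStep (rs G Aᶜ) f h)
    (hF : ∀ y, y ∉ A → F y = f y) (hs : ∀ y ∈ insert v A, F y = s (g y)) :
    ∃ (H : V → Fin 5) (s' : Equiv.Perm (Fin 5)), KEq G F H ∧ (∀ y, y ∉ A → H y = h y) ∧
      ∀ y ∈ insert v A, H y = s' (g y) := by
  obtain ⟨a, b, x, hx, hg⟩ := hst
  by_cases hxA : x ∈ A
  · refine ⟨F, s, Relation.ReflTransGen.refl, fun y hy ↦ ?_, hs⟩
    have hc : ¬ InChain (rs G Aᶜ) f a b x y := by
      intro h
      have hxA' : x ∉ Aᶜ := fun h ↦ h hxA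
      exact hy ((ch_out hxA' h).symm ▸ hxA)
    rw [(hg y).2 hc]
    exact hF y hy
  · have hC : ∀ y, InChain (rs G Aᶜ) f a b x y → y ∉ A := by
      intro y hy
      refine ch_ind (P := fun z ↦ z ∉ A) hxA ?_ hy
      intro y z _ _ hyz _
      exact hyz.2.2
    have hcl : ∀ y z, InChain (rs G Aᶜ) f a b x y → z ∉ A → G.Adj y z →
        (F z = a ∨ F z = b) → InChain (rs G Aᶜ) f a b x z := by
      intro y z hy hz hyz hc
      refine ch_adj hy ⟨hyz, hC y hy, hz⟩ ?_
      rw [← hF z hz]
      exact hc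
    by_cases hvC : InChain (rs G Aᶜ) f a b x v
    · set S : Finset V := univ.filter (fun y ↦ InChain (rs G Aᶜ) f a b x y ∨
        (y ∈ A ∧ (F y = a ∨ F y = b))) with hS
      have hun := UN V G F a b S (by
        intro y hy
        rw [hS, mem_filter] at hy
        rcases hy.2 with h1 | h1
        · rw [hF y (hC y h1)]
          exact ch_col h1
        · exact h1.2) (by
        intro y hy z hyz hz
        rw [hS, mem_filter] at hy ⊢
        refine ⟨mem_univ _, ?_⟩
        by_cases hzA : z ∈ A
        · exact Or.inr ⟨hzA, hz⟩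
        · left
          rcases hy.2 with h1 | h1
          · exact hcl y z h1 hzA hyz hz
          · rw [hA y h1.1 z hzA hyz]
            exact hvC)
      refine ⟨_, Equiv.swap a b * s, hun, fun y hy ↦ ?_, fun y hy ↦ ?_⟩
      · by_cases hc : InChain (rs G Aᶜ) f a b x y
        · have : y ∈ S := by rw [hS, mem_filter]; exact ⟨mem_univ _, Or.inl hc⟩
          rw [if_pos this, (hg y).1 hc, hF y hy]
        · have : y ∉ S := by
            rw [hS, mem_filter]
            rintro ⟨_, h1 | h1⟩
            · exact hc h1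
            · exact hy h1.1
          rw [if_neg this, (hg y).2 hc, hF y hy]
      · rw [Equiv.Perm.mul_apply, ← hs y hy]
        by_cases hyS : y ∈ S
        · rw [if_pos hyS]
        · rw [if_neg hyS]
          rw [hS, mem_filter] at hyS
          have h1 : ¬ (F y = a ∨ F y = b) := by
            intro h2
            rcases hy with h3 | h3
            · apply hyS
              refine ⟨mem_univ _, Or.inl ?_⟩
              rw [h3]
              exact hvC
            · exact hyS ⟨mem_univ _, Or.inr ⟨h3, h2⟩⟩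
          push Not at h1
          rw [Equiv.swap_apply_of_ne_of_ne h1.1 h1.2]
    · set S : Finset V := univ.filter (fun y ↦ InChain (rs G Aᶜ) f a b x y) with hS
      have hmem : ∀ y, y ∈ S ↔ InChain (rs G Aᶜ) f a b x y := by
        intro y
        rw [hS, mem_filter]
        exact ⟨fun h ↦ h.2, fun h ↦ ⟨mem_univ _, h⟩⟩
      have hun := UN V G F a b S (by
        intro y hy
        rw [hmem] at hy
        rw [hF y (hC y hy)]
        exact ch_col hy) (by
        intro y hy z hyz hz
        rw [hmem] at hy ⊢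
        by_cases hzA : z ∈ A
        · exfalso
          have := hA z hzA y (hC y hy) hyz.symm
          rw [this] at hy
          exact hvC hy
        · exact hcl y z hy hzA hyz hz)
      refine ⟨_, s, hun, fun y hy ↦ ?_, fun y hy ↦ ?_⟩
      · by_cases hc : InChain (rs G Aᶜ) f a b x y
        · rw [if_pos ((hmem y).2 hc), (hg y).1 hc, hF y hy]
        · rw [if_neg (fun h ↦ hc ((hmem y).1 h)), (hg y).2 hc, hF y hy]
      · have : y ∉ S := by
          rw [hmem]
          intro h1
          rcases hy with h3 | h3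
          · rw [h3] at h1
            exact hvC h1
          · exact hC y h1 h3
        rw [if_neg this]
        exact hs y hy

/-- (2) -/
theorem cv2 [Fintype V] (UN : StmtUN) (hv : v ∉ A)
    (hA : ∀ x ∈ A, ∀ y, y ∉ A → G.Adj x y → y = v) (g : V → Fin 5)
    {f h F : V → Fin 5} (s : Equiv.Perm (Fin 5)) (hk : KEq (rs G Aᶜ) f h)
    (hF : ∀ y, y ∉ A → F y = f y) (hs : ∀ y ∈ insert v A, F y = s (g y)) :
    ∃ (H : V → Fin 5) (s' : Equiv.Perm (Fin 5)), KEq G F H ∧ (∀ y, y ∉ A → H y = h y) ∧
      ∀ y ∈ insert v A, H y = s' (g y) := by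
  unfold KEq at hk
  induction hk with
  | refl => exact ⟨F, s, Relation.ReflTransGen.refl, hF, hs⟩
  | tail _ hst ih =>
    obtain ⟨F₁, s₁, h1, h2, h3⟩ := ih
    obtain ⟨F₂, s₂, h4, h5, h6⟩ := cv2_step UN hv hA g s₁ hst h2 h3
    exact ⟨F₂, s₂, Relation.ReflTransGen.trans h1 h4, h5, h6⟩

/-- (3) -/
theorem cv3 [Fintype V] (UN : StmtUN) (hv : v ∉ A)
    (hA : ∀ x ∈ A, ∀ y, y ∉ A → G.Adj x y → y = v) (g : V → Fin 5) (n : ℕ) :
    ∀ (s : Equiv.Perm (Fin 5)) (H : V → Fin 5), s.support.card ≤ n → s (g v) = g v →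
      (∀ y, y ∉ A → H y = g y) → (∀ y ∈ insert v A, H y = s (g y)) → KEq G H g := by
  induction n with
  | zero =>
    intro s H hn hgv h1 h2
    have hs : s = 1 := by
      rw [← Equiv.Perm.support_eq_empty_iff, ← Finset.card_eq_zero]
      omega
    have : H = g := by
      funext y
      by_cases hy : y ∈ A
      · rw [h2 y (Or.inr hy), hs]
        rfl
      · exact h1 y hy
    rw [this]
    exact Relation.ReflTransGen.refl
  | succ n ih =>
    intro s H hn hgv h1 h2
    by_cases hs : s = 1
    · have : H = g := by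
        funext y
        by_cases hy : y ∈ A
        · rw [h2 y (Or.inr hy), hs]
          rfl
        · exact h1 y hy
      rw [this]
      exact Relation.ReflTransGen.refl
    · obtain ⟨b, hb⟩ : ∃ b, s b ≠ b := by
        by_contra hcon
        push Not at hcon
        exact hs (Equiv.ext hcon)
      have hb1 : g v ≠ b := by
        rintro rfl
        exact hb hgv
      have hb2 : g v ≠ s b := by
        intro h
        rw [h] at hgv
        exact hb (s.injective hgv)
      set S : Finset V := univ.filter (fun y ↦ y ∈ A ∧ (H y = b ∨ H y = s b)) with hS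
      have hmem : ∀ y, y ∈ S ↔ (y ∈ A ∧ (H y = b ∨ H y = s b)) := by
        intro y
        rw [hS, mem_filter]
        exact ⟨fun h ↦ h.2, fun h ↦ ⟨mem_univ _, h⟩⟩
      have hun := UN V G H b (s b) S (fun y hy ↦ ((hmem y).1 hy).2) (by
        intro y hy z hyz hz
        rw [hmem] at hy ⊢
        by_cases hzA : z ∈ A
        · exact ⟨hzA, hz⟩
        · exfalso
          have hzv := hA y hy.1 z hzA hyz
          rw [hzv, h1 v hv] at hz
          rcases hz with h | h
          · exact hb1 h
          · exact hb2 h)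
      refine Relation.ReflTransGen.trans hun ?_
      have hsg : (Equiv.swap b (s b) * s) (g v) = g v := by
        rw [Equiv.Perm.mul_apply, hgv, Equiv.swap_apply_of_ne_of_ne hb1 hb2]
      refine ih (Equiv.swap b (s b) * s) _ ?_ hsg ?_ ?_
      · have := Equiv.Perm.card_support_swap_mul hb
        omega
      · intro y hy
        rw [if_neg (fun h ↦ hy ((hmem y).1 h).1)]
        exact h1 y hy
      · intro y hy
        rcases hy with h3 | h3
        · rw [h3, if_neg (fun h ↦ hv ((hmem v).1 h).1), hsg]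
          exact h1 v hv
        · rw [Equiv.Perm.mul_apply, ← h2 y (Or.inr h3)]
          by_cases hc : H y = b ∨ H y = s b
          · rw [if_pos ((hmem y).2 ⟨h3, hc⟩)]
          · rw [if_neg (fun h ↦ hc ((hmem y).1 h).2)]
            push Not at hc
            rw [Equiv.swap_apply_of_ne_of_ne hc.1 hc.2]

end

/-- **PACKET CV.** -/
theorem pCV (UN : StmtUN) (KB : StmtKB) : StmtCV := by
  intro V _ G v A hv hA hW hAc f g hf hg
  have hle : ∀ (B : Set V) (f : V → Fin 5), Proper G f → Proper (rs G B) f :=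
    fun B f hf x y hxy ↦ hf x y hxy.1
  obtain ⟨F, hF1, hF2⟩ := cv1 hA (hW f g (hle _ f hf) (hle _ g hg)) (F := f) fun _ _ ↦ rfl
  have hFp : Proper G F := KB.1 V G f F hF1 hf
  obtain ⟨H, s, hH1, hH2, hH3⟩ := cv2 UN hv hA g (F := F) 1
    (hAc F g (hle _ F hFp) (hle _ g hg)) (fun _ _ ↦ rfl) (fun y hy ↦ by rw [hF2 y hy]; rfl)
  have hsv : s (g v) = g v := by
    rw [← hH3 v (Or.inl rfl)]
    exact hH2 v hv
  exact Relation.ReflTransGen.trans hF1 (Relation.ReflTransGen.trans hH1
    (cv3 UN hv hA g _ s H le_rfl hsv hH2 hH3))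

end Pool.Agent.Helper47.ML
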